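import Pool.Agent.MWBN.Stmts

/-!
# Block MWBN, row TCB: change of the residues of a letter with a one letter identity
-/

namespace Pool.Agent.MWBN.H43

open Pool.Agent.Helper14_MV Pool.Agent.Helper2_MV Pool.Agent.MVO Pool.Agent.MWL Pool.Agent.MWS

theorem bef_nil (c d : ℕ) : Bef [] c d := by
  intro P Q h
  have h1 := congrArg List.length h
  simp at h1

theorem bef_cons (a : ℕ) (l : List ℕ) (c d : ℕ) :
    Bef (a :: l) c d ↔ ((a = d → c ∉ l) ∧ Bef l c d) := by
  constructor
  · intro h
    refine ⟨?_, ?_⟩
    · rintro rfl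
      exact h [] l rfl
    · intro P Q hl
      exact h (a :: P) Q (by rw [hl]; rfl)
  · rintro ⟨h1, h2⟩ P Q hl
    rcases P with _ | ⟨b, P⟩
    · have h3 : a :: l = d :: Q := hl
      have h4 := (List.cons.inj h3).1
      have h5 := (List.cons.inj h3).2
      rw [← h5]
      exact h1 h4
    · have h3 : a :: l = b :: (P ++ d :: Q) := hl
      exact h2 P Q (List.cons.inj h3).2

theorem bef_append (A l : List ℕ) (c d : ℕ) :
    Bef (A ++ l) c d ↔ (Bef A c d ∧ Bef l c d ∧ (d ∈ A → c ∉ l)) := by
  induction A with
  | nil =>
    constructor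
    · intro h
      exact ⟨bef_nil c d, h, fun hm => absurd hm (List.not_mem_nil)⟩
    · intro h
      exact h.2.1
  | cons a A ih =>
    rw [List.cons_append, bef_cons, bef_cons, ih]
    constructor
    · rintro ⟨h1, h2, h3, h4⟩
      refine ⟨⟨fun ha => ?_, h2⟩, h3, fun hm => ?_⟩
      · intro hm
        exact h1 ha (List.mem_append_left _ hm)
      · rcases List.mem_cons.1 hm with hm | hm
        · intro hc
          exact h1 hm.symm (List.mem_append_right _ hc)
        · exact h4 hm
    · rintro ⟨⟨h1, h2⟩, h3, h4⟩
      refine ⟨fun ha hm => ?_, h2, h3, fun hm => h4 (List.mem_cons_of_mem _ hm)⟩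
      rcases List.mem_append.1 hm with hm | hm
      · exact h1 ha hm
      · exact h4 (by rw [← ha]; exact List.mem_cons_self) hm

/-- one more copy of a letter next to an occurrence -/
theorem bef_two (P Q : List ℕ) {x c d : ℕ} (hcd : c ≠ d) :
    Bef (P ++ x :: Q) c d ↔ Bef (P ++ x :: x :: Q) c d := by
  simp only [bef_append, bef_cons, List.mem_cons]
  by_cases h1 : c = x
  · subst h1
    tauto
  · by_cases h2 : x = d
    · subst h2
      tauto
    · tauto

theorem bef_rep (P Q : List ℕ) {x c d : ℕ} (hcd : c ≠ d) (m : ℕ) :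
    Bef (P ++ x :: Q) c d ↔ Bef (P ++ (List.replicate (m + 1) x ++ Q)) c d := by
  induction m with
  | zero => exact Iff.rfl
  | succ m ih =>
    rw [ih, List.replicate_succ, List.cons_append, bef_two P _ hcd, ← List.cons_append,
      ← List.cons_append, ← List.replicate_succ, ← List.replicate_succ]

/-- **TCB** -/
theorem tcb (hBlr : BlrStmt) (hChk : ChkStmt) (hIdn : IdnStmt) : TcbStmt := by
  intro n β θ hβ hθ k C hC x hx c' hL hsup
  have hn : 1 ≤ n := hβ.pos
  have hPQ : ∀ j, ∃ P Q : List ℕ, (x ∈ C j → C j = P ++ x :: Q) ∧ (x ∉ C j → P = C j ∧ Q = []) := by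
    intro j
    by_cases h : x ∈ C j
    · obtain ⟨P, Q, e⟩ := List.append_of_mem h
      exact ⟨P, Q, fun _ => e, fun h' => absurd h h'⟩
    · exact ⟨C j, [], fun h' => absurd h' h, fun _ => ⟨rfl, rfl⟩⟩
  choose P Q hPQ using hPQ
  obtain ⟨d, hd⟩ : ∃ d : ℕ → ℕ, ∀ j, d j = if ty C x j = 0 then 0 else (n - 1) * ty C x j + 1 :=
    ⟨_, fun _ => rfl⟩
  have hty : ∀ j, ty C x j = 0 ↔ x ∉ C j := fun j => List.count_eq_zero
  have d0 : ∀ j, x ∉ C j → d j = 0 := fun j hj => by rw [hd, if_pos ((hty j).2 hj)]
  have d1 : ∀ j, x ∈ C j → ty C x j + d j = n * ty C x j + 1 := by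
    intro j hj
    rw [hd, if_neg (fun h => (hty j).1 h hj)]
    obtain ⟨m, rfl⟩ : ∃ m, n = m + 1 := ⟨n - 1, by omega⟩
    rw [Nat.add_sub_cancel]
    ring
  have dp : ∀ j, x ∈ C j → 1 ≤ d j := by
    intro j hj
    rw [hd, if_neg (fun h => (hty j).1 h hj)]
    omega
  obtain ⟨C1, hC1⟩ : ∃ C1 : ℕ → List ℕ,
      C1 = fun j => P j ++ List.replicate (ty C x j + d j) x ++ Q j := ⟨_, rfl⟩
  obtain ⟨C2, hC2⟩ : ∃ C2 : ℕ → List ℕ,
      C2 = fun j => P j ++ List.replicate (c' j + d j) x ++ Q j := ⟨_, rfl⟩
  have c10 : ∀ j, x ∉ C j → C1 j = C j := by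
    intro j hj
    rw [hC1]
    show P j ++ List.replicate (ty C x j + d j) x ++ Q j = C j
    rw [d0 j hj, (hty j).2 hj, ((hPQ j).2 hj).1, ((hPQ j).2 hj).2]
    simp
  have c11 : ∀ j, x ∈ C j → C1 j = P j ++ (List.replicate (n * ty C x j + 1) x ++ Q j) := by
    intro j hj
    rw [hC1]
    show P j ++ List.replicate (ty C x j + d j) x ++ Q j = _
    rw [d1 j hj, List.append_assoc]
  have cnt0 : ∀ j, x ∈ C j → (C j).count x = (P j).count x + 1 + (Q j).count x := by
    intro j hj
    have e := (hPQ j).1 hj
    conv_lhs => rw [e]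
    rw [List.count_append, List.count_cons_self]
    ring
  have cnt1 : ∀ j, (C j).count x ≤ (C1 j).count x := by
    intro j
    by_cases hj : x ∈ C j
    · rw [c11 j hj, cnt0 j hj]
      simp only [List.count_append, List.count_replicate_self]
      omega
    · rw [c10 j hj]
  have h1 : RR β (asm k C) (asm k C1) := by
    refine hBlr β k C C1 ?_
    intro m hm
    by_cases hxm : x ∈ C m
    · have e1 := asm_split hm (fun j => if j < m then C1 j else C j)
      have e2 := asm_split hm (fun j => if j < m + 1 then C1 j else C j)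
      have p1 : pre (fun j => if j < m + 1 then C1 j else C j) m =
          pre (fun j => if j < m then C1 j else C j) m := by
        refine pre_congr (fun j hj => ?_)
        show (if j < m + 1 then C1 j else C j) = (if j < m then C1 j else C j)
        rw [if_pos (by omega), if_pos hj]
      have s1 : suf (fun j => if j < m + 1 then C1 j else C j) m (k - m) =
          suf (fun j => if j < m then C1 j else C j) m (k - m) := by
        refine suf_congr (fun j hj _ => ?_)
        show (if j < m + 1 then C1 j else C j) = (if j < m then C1 j else C j)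
        rw [if_neg (by omega), if_neg (by omega)]
      have b1 : (if m < m then C1 m else C m) = P m ++ x :: Q m := by
        rw [if_neg (lt_irrefl m)]; exact (hPQ m).1 hxm
      have b2 : (if m < m + 1 then C1 m else C m) =
          P m ++ (List.replicate (n * ty C x m + 1) x ++ Q m) := by
        rw [if_pos (Nat.lt_succ_self m)]; exact c11 m hxm
      rw [b1] at e1
      rw [b2, p1, s1] at e2
      have hcnt : 2 ≤ (asm k (fun j => if j < m then C1 j else C j)).count x := by
        rw [count_asm hx]
        refine le_trans (hC.ml m hm x hxm) ?_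
        unfold deg
        refine Finset.sum_le_sum fun j _ => ?_
        show (C j).count x ≤ (if j < m then C1 j else C j).count x
        split_ifs
        · exact cnt1 j
        · exact le_rfl
      set p := pre (fun j => if j < m then C1 j else C j) m with hp
      set s := suf (fun j => if j < m then C1 j else C j) m (k - m) with hs
      have e1' : asm k (fun j => if j < m then C1 j else C j) =
          (p ++ P m) ++ x :: (Q m ++ s) := by
        rw [e1]
        simp only [List.append_assoc, List.cons_append]
      have e2' : asm k (fun j => if j < m + 1 then C1 j else C j) =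
          (p ++ P m) ++ (List.replicate (n * ty C x m + 1) x ++ (Q m ++ s)) := by
        rw [e2]
        simp only [List.append_assoc]
      rw [e1', e2']
      refine hIdn n β hβ.pos hβ.ap hβ.be (p ++ P m) (Q m ++ s) x ?_ _
      by_contra hcon
      rw [not_or] at hcon
      rw [e1', List.count_append, List.count_cons_self, List.count_eq_zero.2 hcon.1,
        List.count_eq_zero.2 hcon.2] at hcnt
      omega
    · have e : (fun j => if j < m then C1 j else C j) = (fun j => if j < m + 1 then C1 j else C j) := by
        funext j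
        by_cases hj : j < m
        · rw [if_pos hj, if_pos (by omega)]
        · rw [if_neg hj]
          by_cases hj' : j = m
          · subst hj'
            rw [if_pos (by omega), c10 j hxm]
          · rw [if_neg (by omega)]
      rw [e]
      exact RR.refl _
  have h2 : RR θ (asm k C1) (asm k C2) := by
    rw [hC1, hC2]
    exact hChk θ k (fun j => ty C x j + d j) (fun j => c' j + d j) x P Q
      ((FC.ofFIC θ).add d hL)
  -- counts of `C2`
  have cx : ∀ j ≤ k, (C2 j).count x = n * ty C x j + c' j := by
    intro j hj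
    rw [hC2]
    show (P j ++ List.replicate (c' j + d j) x ++ Q j).count x = _
    by_cases hxj : x ∈ C j
    · have e1 := cnt0 j hxj
      have e2 := d1 j hxj
      have e3 : ty C x j = (C j).count x := rfl
      simp only [List.count_append, List.count_replicate_self]
      omega
    · have e0 := (hPQ j).2 hxj
      have e1 : c' j = 0 := (hsup j hj).1 ((hty j).2 hxj)
      rw [e0.1, e0.2, d0 j hxj, (hty j).2 hxj, e1]
      have : (C j).count x = 0 := (hty j).2 hxj
      simp [this]
  have cd : ∀ j, ∀ c, c ≠ x → (C2 j).count c = (C j).count c := by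
    intro j c hc
    rw [hC2]
    show (P j ++ List.replicate (c' j + d j) x ++ Q j).count c = _
    have hc' : ¬ x = c := fun h => hc h.symm
    by_cases hxj : x ∈ C j
    · have e := (hPQ j).1 hxj
      conv_rhs => rw [e]
      simp only [List.count_append, List.count_replicate, List.count_cons]
      simp [hc']
    · have e0 := (hPQ j).2 hxj
      rw [e0.1, e0.2]
      simp only [List.count_append, List.count_replicate]
      simp [hc']
  have hmx : ∀ j ≤ k, x ∈ C2 j → x ∈ C j := by
    intro j hj hm
    by_contra hcon
    have e1 : c' j = 0 := (hsup j hj).1 ((hty j).2 hcon)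
    have e2 := cx j hj
    rw [(hty j).2 hcon, e1] at e2
    exact (List.count_eq_zero.1 (by omega : (C2 j).count x = 0)) hm
  have hmd : ∀ j, ∀ c, c ≠ x → (c ∈ C2 j ↔ c ∈ C j) := by
    intro j c hc
    rw [← List.count_pos_iff, ← List.count_pos_iff, cd j c hc]
  refine ⟨C2, ⟨?_, ?_⟩, θ.trans (hθ _ _ h1) h2, ?_, fun j _ c hc => cd j c hc, ?_⟩
  · intro j hj c hc
    by_cases hcx : c = x
    · rw [hcx]; exact hx
    · exact hC.ok j hj c ((hmd j c hcx).1 hc)
  · intro j hj c hc
    by_cases hcx : c = x
    · subst hcx
      refine le_trans (hC.ml j hj c (hmx j hj hc)) ?_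
      unfold deg
      refine Finset.sum_le_sum fun i hi => ?_
      show (C i).count c ≤ (C2 i).count c
      rw [cx i (by have := Finset.mem_range.1 hi; omega)]
      have e : ty C c i = (C i).count c := rfl
      rw [e]
      nlinarith [Nat.zero_le ((C i).count c)]
    · have e : deg k (fun j => (C2 j).count c) = deg k (fun j => (C j).count c) := by
        unfold deg
        exact Finset.sum_congr rfl fun i _ => cd i c hcx
      rw [e]
      exact hC.ml j hj c ((hmd j c hcx).1 hc)
  · intro j hj
    constructor
    · rw [cx j hj]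
      constructor
      · intro h
        omega
      · intro h
        rw [h, (hsup j hj).2 h]
        ring
    · rw [cx j hj]
      show (n * ty C x j + c' j) % n = c' j % n
      rw [Nat.mul_add_mod]
  · intro j hj c e hce
    rw [hC2]
    show Bef (C j) c e ↔ Bef (P j ++ List.replicate (c' j + d j) x ++ Q j) c e
    by_cases hxj : x ∈ C j
    · obtain ⟨m, hm⟩ : ∃ m, c' j + d j = m + 1 := ⟨c' j + d j - 1, by have := dp j hxj; omega⟩
      rw [hm, List.append_assoc, ← bef_rep (P j) (Q j) hce m]
      have e1 := (hPQ j).1 hxj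
      rw [← e1]
    · have e0 := (hPQ j).2 hxj
      have e1 : c' j = 0 := (hsup j hj).1 ((hty j).2 hxj)
      rw [e0.1, e0.2, d0 j hxj, e1]
      simp

end Pool.Agent.MWBN.H43
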